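import Pool.Agent.H49.MI3

set_option autoImplicit false

namespace Pool.Agent.Results.MP_bfd36a_an.Q1

open MeasureTheory Pool.Agent.H49.RX Pool.Agent.H49.MI
open scoped ENNReal

/-- The conjugacy class of every mixing automorphism of an infinite measure space is dense in the
space of mixing automorphisms. -/
theorem result {X : Type} [MeasurableSpace X] [StandardBorelSpace X] (μ : Measure X)
    [SigmaFinite μ] [NullSingletonClass μ] (hμ : μ Set.univ = ⊤) (A : ℕ → Set X)
    (hA : ∀ i, MeasurableSet (A i)) (hs : ∑' i, 2⁻¹ ^ (i + 1) * μ (A i) ≠ ⊤)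
    (T : Aut μ) (hT : MixInf T) (S : Aut μ) (hS : MixInf S) (ε : ℝ≥0∞) (hε : 0 < ε) :
    ∃ R : Aut μ, rInf A (R⁻¹ * T * R) S < ε :=
  dense hμ A hA hs hT hS hε.ne'

end Pool.Agent.Results.MP_bfd36a_an.Q1
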